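import Pool.Agent.Lib.MP_5185df_an.Short
import Pool.Agent.Lib.MP_5185df_an.Cut
import Pool.Agent.Lib.MP_5185df_an.Resolv
import Pool.Agent.Lib.MP_5185df_an.Kap
import Pool.Agent.Lib.MP_5185df_an.Mom
import Pool.Agent.Lib.MP_5185df_an.FreeRes
import Pool.Agent.Lib.MP_5185df_an.Mob
import Pool.Agent.Lib.MP_5185df_an.Path
import Pool.Agent.Lib.MP_5185df_an.Path2
import Pool.Agent.Lib.MP_5185df_an.Trans
import Pool.Agent.Lib.MP_5185df_an.IrrHat
import Pool.Agent.Lib.MP_5185df_an.Hull
import Pool.Agent.Lib.MP_5185df_an.Hilb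
import Pool.Agent.Lib.MP_5185df_an.UCore
import Pool.Agent.Lib.MP_5185df_an.KSeq
import Pool.Agent.Lib.MP_5185df_an.Diag
import Pool.Agent.Lib.MP_5185df_an.Repair
import Pool.Agent.Lib.MP_5185df_an.Unif
import Pool.Agent.Lib.MP_5185df_an.NoIrr
import Pool.Agent.Lib.MP_5185df_an.Gap
import Pool.Agent.Lib.MP_5185df_an.FromU
import Pool.Agent.Lib.MP_5185df_an.Exp
import Pool.Agent.Lib.MP_5185df_an.NotInner
import Pool.Agent.Lib.MP_5185df_an.Pair
import Pool.Agent.Lib.MP_5185df_an.Iter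
import Pool.Agent.Lib.MP_5185df_an.SpecialT
import Pool.Agent.Lib.MP_5185df_an.SpecialG
import Pool.Agent.Lib.MP_5185df_an.SpecialInf

/-!
# Group factors of icc Kazhdan groups are not elementarily equivalent to `L(F_2)`

The notions are defined in `Pool.Agent.Lib.MP_5185df_an.Short` (`LG`, `BSeq`, `Eqv`, `UIso`, `ElemEquiv`,
`Kazhdan`) and `Pool.Agent.Lib.MP_5185df_an.Defs` (`E2`, `Op`, `del`, `ICC`,
`InnerAmenable`).
-/

namespace Pool.Agent.Results.MP_5185df_an.KazhdanNotFree

open GVN.St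

/-- **Positive answer to Q1.** There is a countable infinite icc group `G` which is not inner
amenable such that `L(G)` is not elementarily equivalent to `L(F_2)`. More precisely, there are
countable infinite icc groups with Kazhdan's property (T), and every such group is an example. -/
theorem result :
    (∃ (G : Type) (_ : Group G), Countable G ∧ Infinite G ∧ GVN.ICC G ∧ Kazhdan G ∧
      ¬ GVN.InnerAmenable G ∧ ¬ ElemEquiv G (FreeGroup (Fin 2))) ∧
    ∀ (G : Type) [Group G] [Countable G], GVN.ICC G → Kazhdan G →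
      ¬ GVN.InnerAmenable G ∧ ¬ ElemEquiv G (FreeGroup (Fin 2)) := by
  have kap := GVN.kapStmt GVN.cutStmt GVN.resolvStmt
  have trans := GVN.transStmt GVN.freeResStmt
  have irr := GVN.irrHatStmt GVN.momStmt GVN.cutStmt GVN.resolvStmt kap trans
  have ks := GVN.kSeqStmt GVN.uCoreStmt GVN.hilbStmt GVN.hullStmt
  have rep := GVN.repairStmt GVN.cutStmt ks GVN.diagStmt
  have unif := GVN.unifStmt GVN.momStmt rep
  have path := GVN.pathStmt' (GVN.pathStmt GVN.mobStmt)
  have noirr := GVN.noIrrStmt GVN.momStmt unif path GVN.diagStmt irr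
  have fromU := GVN.fromUStmt GVN.cutStmt kap GVN.gapStmt
  have ninner := GVN.notInnerStmt GVN.expStmt
  have gen : ∀ (G : Type) [Group G] [Countable G], GVN.ICC G → Kazhdan G →
      ¬ GVN.InnerAmenable G ∧ ¬ ElemEquiv G (FreeGroup (Fin 2)) := by
    intro G _ _ hI hT
    have hT' := (Kazhdan_iff G).1 hT
    exact ⟨ninner G hI hT', fun h => GVN.not_elemEquiv fromU noirr hI hT' h.old⟩
  refine ⟨?_, gen⟩
  obtain ⟨G, iG, x, hc, hinf, hI, hx, h5, h1, h2⟩ := GVN.special_infinite
  have hT : Kazhdan G := (Kazhdan_iff G).2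
    (GVN.specialTStmt GVN.pairStmt GVN.iterStmt G x hx h5 h1 h2)
  have := hc
  exact ⟨G, iG, hc, hinf, hI, hT, (gen G hI hT).1, (gen G hI hT).2⟩

end Pool.Agent.Results.MP_5185df_an.KazhdanNotFree
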